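import Mathlib

/-!
# Weihrauch degrees and the totalizing jump: definitions

Points of Baire space are functions `ℕ → ℕ`.
-/

set_option autoImplicit false

namespace Pool.Agent.Lib_MP_1d3aa8_lc

/-- The initial segment of length `n` of a point `p` of Baire space, as a list. -/
def pre (p : ℕ → ℕ) (n : ℕ) : List ℕ := (List.range n).map p

/-- `CompFun Φ`: the partial functional `Φ` on Baire space is computable, that is, there is a
computable function `h` on finite strings which is monotone for the initial-segment order and such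
that for every `p` in the domain of `Φ` the value `Φ p` is the limit of the strings `h (p|n)`: each
initial segment of `Φ p` is an initial segment of `h (p|n)` for some `n`. -/
def CompFun (Φ : (ℕ → ℕ) →. (ℕ → ℕ)) : Prop :=
  ∃ h : List ℕ → List ℕ, Computable h ∧ (∀ σ τ : List ℕ, σ <+: τ → h σ <+: h τ) ∧
    ∀ p q : ℕ → ℕ, q ∈ Φ p → ∀ m, ∃ n, pre q m <+: h (pre p n)

/-- The code of the pair of points `p`, `q` of Baire space. -/
def bpair (p q : ℕ → ℕ) : ℕ → ℕ := fun n => Nat.pair (p n) (q n)

/-- The sequence with first entry `a` followed by the entries of `p`. -/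
def bcons (a : ℕ) (p : ℕ → ℕ) : ℕ → ℕ
  | 0 => a
  | n + 1 => p n

/-- A problem: a multi-valued function on Baire space; `f p` is the set of admissible outputs, and
the points with no admissible output are those outside the domain. -/
abbrev Problem := (ℕ → ℕ) → Set (ℕ → ℕ)

/-- The domain of a problem. -/
def dom (f : Problem) : Set (ℕ → ℕ) := {p | (f p).Nonempty}

/-- Weihrauch reducibility. -/
def WLE (f g : Problem) : Prop :=
  ∃ Φ Ψ : (ℕ → ℕ) →. (ℕ → ℕ), CompFun Φ ∧ CompFun Ψ ∧
    ∀ p ∈ dom f, ∃ p' ∈ Φ p, p' ∈ dom g ∧ ∀ q ∈ g p', ∃ r ∈ Ψ (bpair p q), r ∈ f p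

/-- Weihrauch equivalence. -/
def WEquiv (f g : Problem) : Prop := WLE f g ∧ WLE g f

/-- The meet `f ⊓ g`: for `x ∈ dom f` and `z ∈ dom g`, the outputs at `(x, z)` are
`0 y` with `y ∈ f x` and `1 y` with `y ∈ g z`. -/
def meet (f g : Problem) : Problem := fun p =>
  {r | ∃ x z, p = bpair x z ∧ x ∈ dom f ∧ z ∈ dom g ∧
    ((∃ y ∈ f x, r = bcons 0 y) ∨ ∃ y ∈ g z, r = bcons 1 y)}

/-- The totalization `T g`: equal to `g p` on the domain of `g`, everything elsewhere. -/
def total (g : Problem) : Problem := fun p => {r | p ∈ dom g → r ∈ g p}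

/-- `IsTotJump f t`: the problem `t` represents the totalizing jump of `f`, i.e. its degree is the
largest element of the set of degrees of totalizations `T g` of problems `g` equivalent to `f`. -/
def IsTotJump (f t : Problem) : Prop :=
  (∃ g, WEquiv g f ∧ WEquiv t (total g)) ∧ ∀ g, WEquiv g f → WLE (total g) t

end Pool.Agent.Lib_MP_1d3aa8_lc
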