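import Mathlib
import Pool.Agent.Lib_MP_1d3aa8_lc.Defs

/-!
# Distributivity of the totalizing jump over the meet of the Weihrauch degrees

For problems `f`, `g` (multi-valued functions on Baire space with a domain) that are
Weihrauch-incomparable, `tJ(f ⊓ g)` is strictly below `tJ(f) ⊓ tJ(g)`.

Outline of the proof (`key`).  Let `tJ(f) ⊓ tJ(g) ≤ T M` where `M ≤ g`, let `(Φ, Ψ)` witness it and look
at the input `(0^ω, 0^ω)`.  Say `Ψ` commits to the side of `f` with first output digit `m`, reading only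
`s` digits of everything.  For `x ∈ dom f` present `p = 0^s (1+j) x` on the side of `f`, where the code `j`
asks for `{(m+1) y : y ∈ f x}`.  As the committed digit `m` is wrong, the input `(p, p')` must be sent into
`dom M`, whatever `p' ∈ [0^s]` is.  Hence it provides some `z ∈ dom g` and every `w ∈ g z` yields
`t_w`, which is either `0 (m+1) y` with `y ∈ f x` or `1 r` with `r` a solution on the side of `g`.
Now choose `p' = 0^s (1+j') x` so that its solutions are the `N(t_w)`, `w ∈ g z`, where `N` deletes the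
first digit of `t_w` and adds one to the second one.  By induction on the first digit of `N(t_w)`, its
tail lies in `f x`; so `f ≤ g`.
-/

set_option autoImplicit false
set_option linter.unusedVariables false

namespace Pool.Agent.Lib_MP_1d3aa8_lc

open Nat.Partrec (Code)
open Nat.Partrec.Code (eval evaln)

/-! ### String functions -/
/-- `Maps h p q`: the values of the string function `h` on initial segments of `p`
extend every initial segment of `q`. -/
def Maps (h : List ℕ → List ℕ) (p q : ℕ → ℕ) : Prop :=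
  ∀ m, ∃ n, pre q m <+: h (pre p n)

/-- Monotone string functions. -/
def Mono (h : List ℕ → List ℕ) : Prop := ∀ σ τ : List ℕ, σ <+: τ → h σ <+: h τ

@[simp] lemma pre_length (p : ℕ → ℕ) (n : ℕ) : (pre p n).length = n := by simp [pre]

lemma pre_getElem (p : ℕ → ℕ) (n i : ℕ) (h : i < (pre p n).length) : (pre p n)[i] = p i := by
  simp [pre]

lemma pre_take (p : ℕ → ℕ) (n m : ℕ) : (pre p n).take m = pre p (min m n) := by
  simp [pre, ← List.map_take, List.take_range]

lemma pre_prefix (p : ℕ → ℕ) {m n : ℕ} (h : m ≤ n) : pre p m <+: pre p n := by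
  rw [List.prefix_iff_eq_take, pre_length, pre_take, min_eq_left h]

lemma pre_inj {p q : ℕ → ℕ} (h : ∀ n, pre p n = pre q n) : p = q := by
  funext i
  have h1 := h (i + 1)
  have h2 : (pre p (i+1))[i]'(by simp) = (pre q (i+1))[i]'(by simp) := by simp [h1]
  rwa [pre_getElem, pre_getElem] at h2

lemma pre_zero (p : ℕ → ℕ) : pre p 0 = [] := by simp [pre]

lemma pre_succ (p : ℕ → ℕ) (n : ℕ) : pre p (n + 1) = p 0 :: pre (fun i => p (i + 1)) n := by
  simp [pre, List.range_succ_eq_map, Function.comp_def]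

lemma pre_cons (a : ℕ) (p : ℕ → ℕ) (n : ℕ) : pre (bcons a p) (n + 1) = a :: pre p n := by
  rw [pre_succ]; rfl

lemma pre_eq_iff (p : ℕ → ℕ) (n : ℕ) (σ : List ℕ) (hσ : σ.length = n) :
    pre p n = σ ↔ ∀ i (h : i < σ.length), σ[i] = p i := by
  constructor
  · rintro rfl i h
    rw [pre_getElem]
  · intro h
    apply List.ext_getElem (by simp [hσ])
    intro i h1 h2
    rw [pre_getElem, h]

lemma Maps.unique {h : List ℕ → List ℕ} (hm : Mono h) {p q q' : ℕ → ℕ}
    (h1 : Maps h p q) (h2 : Maps h p q') : q = q' := by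
  apply pre_inj
  intro m
  obtain ⟨n, hn⟩ := h1 m
  obtain ⟨n', hn'⟩ := h2 m
  have a := hn.trans (hm _ _ (pre_prefix p (le_max_left n n')))
  have b := hn'.trans (hm _ _ (pre_prefix p (le_max_right n n')))
  exact (List.prefix_of_prefix_length_le a b (by simp)).eq_of_length (by simp)

lemma Maps.comp {h k : List ℕ → List ℕ} (hk : Mono k) {p q r : ℕ → ℕ}
    (h1 : Maps h p q) (h2 : Maps k q r) : Maps (fun σ => k (h σ)) p r := by
  intro m
  obtain ⟨n, hn⟩ := h2 m
  obtain ⟨n', hn'⟩ := h1 n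
  exact ⟨n', hn.trans (hk _ _ hn')⟩

lemma Mono.comp {h k : List ℕ → List ℕ} (hk : Mono k) (hh : Mono h) :
    Mono (fun σ => k (h σ)) := fun σ τ hs => hk _ _ (hh _ _ hs)

/-- interleaving of strings -/
def zip (σ τ : List ℕ) : List ℕ := List.zipWith Nat.pair σ τ

lemma zip_mono {σ σ' τ τ' : List ℕ} (h1 : σ <+: σ') (h2 : τ <+: τ') :
    zip σ τ <+: zip σ' τ' := by
  rw [List.prefix_iff_getElem?] at *
  intro i hi
  simp only [zip, List.length_zipWith, lt_min_iff] at hi
  have a := h1 i hi.1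
  have b := h2 i hi.2
  simp only [zip, List.getElem?_zipWith, a, b, List.getElem_zipWith]

lemma zip_pre (p q : ℕ → ℕ) (n : ℕ) : zip (pre p n) (pre q n) = pre (bpair p q) n := by
  simp only [zip, pre, List.zipWith_map_left, List.zipWith_map_right, List.zipWith_self]
  rfl

lemma zip_prefix (p q : ℕ → ℕ) (n m : ℕ) : pre (bpair p q) (min n m) <+: zip (pre p n) (pre q m) := by
  rw [← zip_pre]
  exact zip_mono (pre_prefix _ (min_le_left _ _)) (pre_prefix _ (min_le_right _ _))

lemma Maps.pair {h k : List ℕ → List ℕ} (hh : Mono h) (hk : Mono k) {p q r : ℕ → ℕ}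
    (h1 : Maps h p q) (h2 : Maps k p r) : Maps (fun σ => zip (h σ) (k σ)) p (bpair q r) := by
  intro m
  obtain ⟨n, hn⟩ := h1 m
  obtain ⟨n', hn'⟩ := h2 m
  refine ⟨max n n', ?_⟩
  rw [← zip_pre]
  exact zip_mono (hn.trans (hh _ _ (pre_prefix p (le_max_left n n'))))
    (hn'.trans (hk _ _ (pre_prefix p (le_max_right n n'))))

lemma Mono.pair {h k : List ℕ → List ℕ} (hh : Mono h) (hk : Mono k) :
    Mono (fun σ => zip (h σ) (k σ)) := fun σ τ hs => zip_mono (hh _ _ hs) (hk _ _ hs)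

lemma primrec_zip : Primrec₂ zip := by
  have h : Primrec₂ (fun (σ τ : List ℕ) =>
      (List.range (min σ.length τ.length)).map (fun i => Nat.pair (σ.getI i) (τ.getI i))) := by
    refine Primrec.list_map (Primrec.list_range.comp
      (Primrec.nat_min.comp (Primrec.list_length.comp Primrec.fst)
        (Primrec.list_length.comp Primrec.snd))) ?_
    exact Primrec₂.natPair.comp
      (Primrec.list_getI.comp (Primrec.fst.comp Primrec.fst) Primrec.snd)
      (Primrec.list_getI.comp (Primrec.snd.comp Primrec.fst) Primrec.snd)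
  refine h.of_eq ?_
  intro σ τ
  apply List.ext_getElem (by simp [zip])
  intro i h1 h2
  simp only [List.length_map, List.length_range, lt_min_iff] at h1
  simp only [zip, List.getElem_map, List.getElem_range, List.getElem_zipWith]
  rw [List.getI_eq_getElem _ h1.1, List.getI_eq_getElem _ h1.2]

/-- `h` is a computable monotone string function. -/
def IsFn (h : List ℕ → List ℕ) : Prop := Computable h ∧ Mono h

lemma IsFn.comp {h k : List ℕ → List ℕ} (hk : IsFn k) (hh : IsFn h) :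
    IsFn (fun σ => k (h σ)) := ⟨hk.1.comp hh.1, hk.2.comp hh.2⟩

lemma IsFn.pair {h k : List ℕ → List ℕ} (hh : IsFn h) (hk : IsFn k) :
    IsFn (fun σ => zip (h σ) (k σ)) :=
  ⟨primrec_zip.to_comp.comp hh.1 hk.1, hh.2.pair hk.2⟩

lemma isFn_id : IsFn (fun σ => σ) := ⟨Computable.id, fun _ _ h => h⟩

lemma maps_id (p : ℕ → ℕ) : Maps (fun σ => σ) p p := fun m => ⟨m, List.prefix_rfl⟩

def fst (p : ℕ → ℕ) : ℕ → ℕ := fun n => (p n).unpair.1
def snd (p : ℕ → ℕ) : ℕ → ℕ := fun n => (p n).unpair.2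

@[simp] lemma fst_pair (p q : ℕ → ℕ) : fst (bpair p q) = p := by funext n; simp [fst, bpair]
@[simp] lemma snd_pair (p q : ℕ → ℕ) : snd (bpair p q) = q := by funext n; simp [snd, bpair]
@[simp] lemma pair_fst_snd (p : ℕ → ℕ) : bpair (fst p) (snd p) = p := by
  funext n; simp [fst, snd, bpair]

def sfst (σ : List ℕ) : List ℕ := σ.map (fun a => a.unpair.1)
def ssnd (σ : List ℕ) : List ℕ := σ.map (fun a => a.unpair.2)

lemma isFn_sfst : IsFn sfst :=
  ⟨(Primrec.list_map Primrec.id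
    ((Primrec.fst.comp Primrec.unpair).comp Primrec.snd).to₂).to_comp, fun _ _ h => h.map _⟩
lemma isFn_ssnd : IsFn ssnd :=
  ⟨(Primrec.list_map Primrec.id
    ((Primrec.snd.comp Primrec.unpair).comp Primrec.snd).to₂).to_comp, fun _ _ h => h.map _⟩

lemma sfst_pre (p : ℕ → ℕ) (n : ℕ) : sfst (pre p n) = pre (fst p) n := by
  simp [sfst, pre, fst, Function.comp_def]
lemma ssnd_pre (p : ℕ → ℕ) (n : ℕ) : ssnd (pre p n) = pre (snd p) n := by
  simp [ssnd, pre, snd, Function.comp_def]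

lemma maps_sfst (p : ℕ → ℕ) : Maps sfst p (fst p) := fun m => ⟨m, by rw [sfst_pre]⟩
lemma maps_ssnd (p : ℕ → ℕ) : Maps ssnd p (snd p) := fun m => ⟨m, by rw [ssnd_pre]⟩

/-- drop the first `k` entries -/
def shift (k : ℕ) (p : ℕ → ℕ) : ℕ → ℕ := fun n => p (n + k)

lemma isFn_drop (k : ℕ) : IsFn (fun σ => σ.drop k) :=
  ⟨(Primrec.list_drop.comp (Primrec.const k) Primrec.id).to_comp, fun _ _ h => h.drop k⟩

lemma drop_pre (p : ℕ → ℕ) (k n : ℕ) : (pre p (n + k)).drop k = pre (shift k p) n := by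
  apply List.ext_getElem (by simp)
  intro i h1 h2
  simp [pre, shift, add_comm]

lemma maps_drop (k : ℕ) (p : ℕ → ℕ) : Maps (fun σ => σ.drop k) p (shift k p) :=
  fun m => ⟨m + k, by change _ <+: List.drop k (pre p (m + k)); rw [drop_pre]⟩

/-- `s` zeros, then `a`, then `x`. -/
def app (s a : ℕ) (x : ℕ → ℕ) : ℕ → ℕ := fun n => if n < s then 0 else if n = s then a else x (n - s - 1)

def sapp (s a : ℕ) (σ : List ℕ) : List ℕ := List.replicate s 0 ++ a :: σ

lemma isFn_sapp (s a : ℕ) : IsFn (sapp s a) := by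
  constructor
  · exact (Primrec.list_append.comp (Primrec.const _)
      (Primrec.list_cons.comp (Primrec.const a) Primrec.id)).to_comp
  · intro σ τ h
    simp only [sapp, List.prefix_append_right_inj, List.cons_prefix_cons, true_and]
    exact h

lemma sapp_pre (s a : ℕ) (x : ℕ → ℕ) (n : ℕ) : sapp s a (pre x n) = pre (app s a x) (s + 1 + n) := by
  symm
  rw [pre_eq_iff _ _ _ (by simp [sapp]; omega)]
  intro i hi
  simp only [sapp, List.length_append, List.length_replicate, List.length_cons, pre_length] at hi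
  simp only [sapp, List.getElem_append, List.length_replicate, List.getElem_replicate,
    List.getElem_cons, app]
  split_ifs with h1 h2 h3 h3
  · rfl
  · rfl
  · omega
  · omega
  · rw [pre_getElem]

lemma maps_sapp (s a : ℕ) (x : ℕ → ℕ) : Maps (sapp s a) x (app s a x) :=
  fun m => ⟨m, by rw [sapp_pre]; exact pre_prefix _ (by omega)⟩

lemma shift_app (s a : ℕ) (x : ℕ → ℕ) : shift (s + 1) (app s a x) = x := by
  funext n
  simp only [shift, app]
  rw [if_neg (by omega), if_neg (by omega)]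
  congr 1
  omega

/-- zero sequence -/
def zeros : ℕ → ℕ := fun _ => 0

lemma pre_app (s a : ℕ) (x : ℕ → ℕ) (n : ℕ) (h : n ≤ s) : pre (app s a x) n = pre zeros n := by
  rw [pre_eq_iff _ _ _ (by simp)]
  intro i hi
  rw [pre_getElem]
  simp only [pre_length] at hi
  simp only [app, zeros]
  rw [if_pos (by omega)]

/-- modify the head -/
def mh (f : ℕ → ℕ) (p : ℕ → ℕ) : ℕ → ℕ := bcons (f (p 0)) (shift 1 p)

lemma isFn_mh (f : ℕ → ℕ) (hf : Primrec f) : IsFn (fun σ => σ.modifyHead f) := by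
  refine ⟨(Primrec.list_modifyHead hf).to_comp, ?_⟩
  intro σ τ h
  obtain ⟨ρ, rfl⟩ := h
  cases σ with
  | nil => simp
  | cons a σ => simp

lemma maps_mh (f : ℕ → ℕ) (p : ℕ → ℕ) : Maps (fun σ => σ.modifyHead f) p (mh f p) := by
  intro m
  refine ⟨m + 1, ?_⟩
  rw [pre_succ]
  simp only [List.modifyHead_cons]
  have : f (p 0) :: pre (fun i => p (i + 1)) m = pre (mh f p) (m + 1) := by
    rw [mh, pre_cons]; rfl
  rw [this]
  exact pre_prefix _ (by omega)

/-! ### The universal functional -/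

/-- one step of the universal functional -/
def stepU (c : Code) (σ cur : List ℕ) (n : ℕ) : List ℕ :=
  match (evaln n c (Encodable.encode (σ.take n.unpair.1))).bind
      (fun m => (Encodable.decode m : Option (List ℕ))) with
  | some τ => if τ.take cur.length = cur then τ else cur
  | none => cur

/-- the monotone string function with code `c` -/
def univC (c : Code) (σ : List ℕ) : List ℕ :=
  Nat.rec [] (fun n cur => stepU c σ cur n) σ.length

def univC' (c : Code) (σ : List ℕ) (k : ℕ) : List ℕ :=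
  Nat.rec [] (fun n cur => stepU c σ cur n) k

lemma stepU_prefix (c : Code) (σ cur : List ℕ) (n : ℕ) : cur <+: stepU c σ cur n := by
  unfold stepU
  split
  · split_ifs with h
    · rw [List.prefix_iff_eq_take, h]
    · exact List.prefix_rfl
  · exact List.prefix_rfl

lemma univC'_succ (c : Code) (σ : List ℕ) (k : ℕ) :
    univC' c σ (k + 1) = stepU c σ (univC' c σ k) k := rfl

lemma univC'_mono (c : Code) (σ : List ℕ) {k l : ℕ} (h : k ≤ l) :
    univC' c σ k <+: univC' c σ l := by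
  induction h with
  | refl => exact List.prefix_rfl
  | step _ ih => exact ih.trans (by rw [univC'_succ]; exact stepU_prefix _ _ _ _)

lemma univC'_congr (c : Code) {σ τ : List ℕ} (h : σ <+: τ) (k : ℕ) (hk : k ≤ σ.length) :
    univC' c σ k = univC' c τ k := by
  induction k with
  | zero => rfl
  | succ k ih =>
    rw [univC'_succ, univC'_succ, ← ih (by omega)]
    have : σ.take k.unpair.1 = τ.take k.unpair.1 := by
      have h1 := Nat.unpair_left_le k
      rw [List.prefix_iff_eq_take.1 h, List.take_take, min_eq_left (by omega)]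
    unfold stepU
    rw [this]

lemma univC_mono (c : Code) : Mono (univC c) := by
  intro σ τ h
  change univC' c σ σ.length <+: univC' c τ τ.length
  rw [univC'_congr c h _ le_rfl]
  exact univC'_mono c τ h.length_le

lemma primrec_univ : Primrec₂ univC := by
  have hstep : Primrec₂ (fun (a : Code × List ℕ) (b : ℕ × List ℕ) => stepU a.1 a.2 b.2 b.1) := by
    have he : Primrec₂ (fun (a : Code × List ℕ) (b : ℕ × List ℕ) =>
        (evaln b.1 a.1 (Encodable.encode (a.2.take b.1.unpair.1))).bind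
          (fun m => (Encodable.decode m : Option (List ℕ)))) := by
      have hd : Primrec₂ (fun (_ : (Code × List ℕ) × (ℕ × List ℕ)) (m : ℕ) =>
          (Encodable.decode m : Option (List ℕ))) := (Primrec.decode (α := List ℕ)).comp Primrec.snd
      have ht : Primrec (fun a : (Code × List ℕ) × (ℕ × List ℕ) =>
          Encodable.encode (a.1.2.take a.2.1.unpair.1)) :=
        Primrec.encode.comp (Primrec.list_take.comp
          (Primrec.fst.comp (Primrec.unpair.comp (Primrec.fst.comp Primrec.snd)))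
          (Primrec.snd.comp Primrec.fst))
      have ht2 : Primrec (fun a : (Code × List ℕ) × (ℕ × List ℕ) =>
          evaln a.2.1 a.1.1 (Encodable.encode (a.1.2.take a.2.1.unpair.1))) :=
        Nat.Partrec.Code.primrec_evaln.comp
          (Primrec.pair (Primrec.pair (Primrec.fst.comp Primrec.snd) (Primrec.fst.comp Primrec.fst)) ht)
      exact Primrec.option_bind ht2 hd
    have : Primrec₂ (fun (a : Code × List ℕ) (b : ℕ × List ℕ) =>
      Option.casesOn (motive := fun _ => List ℕ) ((evaln b.1 a.1 (Encodable.encode (a.2.take b.1.unpair.1))).bind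
          (fun m => (Encodable.decode m : Option (List ℕ)))) b.2
          (fun τ => if τ.take b.2.length = b.2 then τ else b.2)) := by
      refine Primrec.option_casesOn he (Primrec.snd.comp Primrec.snd) ?_
      refine Primrec.ite ?_ Primrec.snd ((Primrec.snd.comp Primrec.snd).comp Primrec.fst)
      refine Primrec.eq.comp ?_ ((Primrec.snd.comp Primrec.snd).comp Primrec.fst)
      exact Primrec.list_take.comp (Primrec.list_length.comp ((Primrec.snd.comp Primrec.snd).comp Primrec.fst)) Primrec.snd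
    refine this.of_eq ?_
    intro a b
    unfold stepU
    cases (evaln b.1 a.1 (Encodable.encode (a.2.take b.1.unpair.1))).bind
          (fun m => (Encodable.decode m : Option (List ℕ))) <;> rfl
  have h2 := Primrec.nat_rec (α := Code × List ℕ) (β := List ℕ) (f := fun _ => []) (g := fun a b => stepU a.1 a.2 b.2 b.1)
    (Primrec.const []) hstep
  exact (h2.comp Primrec.id (Primrec.list_length.comp Primrec.snd))

lemma exists_code {h : List ℕ → List ℕ} (hh : IsFn h) :
    ∃ c : Code, ∀ p q, Maps h p q → Maps (univC c) p q := by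
  have hcomp : Nat.Partrec fun n => Part.bind (Encodable.decode (α := List ℕ) n)
      fun a => ((h : List ℕ →. List ℕ) a).map Encodable.encode := hh.1
  obtain ⟨c, hc⟩ := Nat.Partrec.Code.exists_code.1 hcomp
  have hc' : ∀ σ : List ℕ, Encodable.encode (h σ) ∈ eval c (Encodable.encode σ) := by
    intro σ
    rw [hc]
    simp
  have hev : ∀ (σ : List ℕ) k m, m ∈ evaln k c (Encodable.encode σ) → m = Encodable.encode (h σ) := by
    intro σ k m hm
    exact Part.mem_unique (Nat.Partrec.Code.evaln_sound hm) (hc' σ)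
  refine ⟨c, ?_⟩
  intro p q hpq
  have hall : ∀ n, h (pre p n) = pre q (h (pre p n)).length := by
    intro n
    obtain ⟨n', hn'⟩ := hpq (h (pre p n)).length
    have a := hn'.trans (hh.2 _ _ (pre_prefix p (le_max_left n' n)))
    have b := hh.2 _ _ (pre_prefix p (le_max_right n' n))
    exact ((List.prefix_of_prefix_length_le a b (by simp)).eq_of_length (by simp)).symm
  -- all values of the universal functional are prefixes of `q`
  have hval : ∀ (N k : ℕ), k ≤ N → univC' c (pre p N) k = pre q (univC' c (pre p N) k).length := by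
    intro N k hk
    induction k with
    | zero => simp [univC', pre_zero]
    | succ k ih =>
      have ih := ih (by omega)
      rw [univC'_succ]
      unfold stepU
      split
      · rename_i τ hτ
        split_ifs with h1
        · rw [Option.bind_eq_some_iff] at hτ
          obtain ⟨m, hm, hm'⟩ := hτ
          have := hev _ _ _ hm
          rw [this, Encodable.encodek] at hm'
          have h3 : h (List.take (Nat.unpair k).1 (pre p N)) = τ := by simpa using hm'
          rw [← h3, pre_take]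
          exact hall _
        · exact ih
      · exact ih
  intro m
  obtain ⟨n, hn⟩ := hpq m
  obtain ⟨k0, hk0⟩ := Nat.Partrec.Code.evaln_complete.1 (hc' (pre p n))
  -- choose a stage `k ≥ k0` with `k.unpair.1 = n`
  let k := Nat.pair n k0
  have hk : k0 ≤ k := Nat.right_le_pair n k0
  have hkn : n ≤ k := Nat.left_le_pair n k0
  have hkm : Encodable.encode (h (pre p n)) ∈ evaln k c (Encodable.encode (pre p n)) :=
    Nat.Partrec.Code.evaln_mono hk hk0
  refine ⟨k + 1, ?_⟩
  have h1 := hval (k + 1) k (by omega)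
  have h2 := hval (k + 1) (k + 1) (by omega)
  change pre q m <+: univC' c (pre p (k + 1)) (pre p (k+1)).length
  rw [pre_length]
  have hlen : (h (pre p n)).length ≤ (univC' c (pre p (k+1)) (k+1)).length := by
    rw [univC'_succ]
    unfold stepU
    have e1 : (pre p (k+1)).take k.unpair.1 = pre p n := by
      rw [pre_take]
      congr 1
      simp only [k, Nat.unpair_pair]
      exact min_eq_left (by omega)
    rw [e1]
    have e2 : evaln k c (Encodable.encode (pre p n)) = some (Encodable.encode (h (pre p n))) := hkm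
    rw [e2]
    simp only [Option.bind_some, Encodable.encodek]
    split_ifs with h3
    · exact le_rfl
    · by_contra hlt
      push Not at hlt
      apply h3
      rw [hall n, pre_take, h1, pre_length, min_eq_left]
      exact hlt.le
  rw [h2]
  refine (hn.trans ?_)
  rw [hall n]
  exact pre_prefix _ hlen

lemma isFn_cons (a : ℕ) : IsFn (fun σ => a :: σ) :=
  ⟨(Primrec.list_cons.comp (Primrec.const a) Primrec.id).to_comp,
    fun _ _ h => by simpa using h⟩

lemma maps_cons (a : ℕ) (x : ℕ → ℕ) : Maps (fun σ => a :: σ) x (bcons a x) := by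
  intro m
  refine ⟨m, ?_⟩
  change _ <+: a :: pre x m
  rw [← pre_cons]
  exact pre_prefix _ (by omega)

/-- select a code from the input string and run the universal functional -/
def sel (e : List ℕ → Option ℕ) (g : ℕ → ℕ) (σ : List ℕ) : List ℕ :=
  Option.casesOn (motive := fun _ => List ℕ) (e σ) []
    (fun a => univC (Denumerable.ofNat Code (g a)) σ)

lemma isFn_sel {e : List ℕ → Option ℕ} {g : ℕ → ℕ} (he : Primrec e)
    (hm : ∀ σ τ a, σ <+: τ → e σ = some a → e τ = some a) (hg : Primrec g) :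
    IsFn (sel e g) := by
  constructor
  · have h : Primrec₂ (fun (σ : List ℕ) (a : ℕ) => univC (Denumerable.ofNat Code (g a)) σ) :=
      primrec_univ.comp ((Primrec.ofNat Code).comp (hg.comp Primrec.snd)) Primrec.fst
    exact (Primrec.option_casesOn he (Primrec.const []) h).to_comp
  · intro σ τ h
    unfold sel
    cases h1 : e σ with
    | none => simp
    | some a =>
      rw [hm _ _ _ h h1]
      exact univC_mono _ _ _ h

lemma maps_sel {e : List ℕ → Option ℕ} {g : ℕ → ℕ}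
    (hm : ∀ σ τ a, σ <+: τ → e σ = some a → e τ = some a) {p q : ℕ → ℕ} {n a : ℕ}
    (hn : e (pre p n) = some a) (h : Maps (univC (Denumerable.ofNat Code (g a))) p q) :
    Maps (sel e g) p q := by
  intro m
  obtain ⟨n', hn'⟩ := h m
  refine ⟨max n n', ?_⟩
  unfold sel
  rw [hm _ _ _ (pre_prefix p (le_max_left n n')) hn]
  exact hn'.trans (univC_mono _ _ _ (pre_prefix p (le_max_right n n')))

/-- first nonzero entry -/
def fnz (σ : List ℕ) : Option ℕ := (σ.dropWhile (fun a => a == 0)).head?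

lemma primrec_fnz : Primrec fnz :=
  Primrec.list_head?.comp (Primrec.list_dropWhile (Primrec.beq.comp Primrec.id (Primrec.const 0)))

lemma fnz_mono : ∀ σ τ a, σ <+: τ → fnz σ = some a → fnz τ = some a := by
  rintro σ τ a ⟨ρ, rfl⟩ h
  unfold fnz at *
  rw [List.dropWhile_append]
  split_ifs with h1
  · simp only [List.isEmpty_iff] at h1
    rw [h1] at h
    simp at h
  · rw [List.head?_append, h]
    rfl

lemma fnz_app (s a : ℕ) (x : ℕ → ℕ) (ha : a ≠ 0) : fnz (pre (app s a x) (s + 1)) = some a := by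
  have h := sapp_pre s a x 0
  rw [add_zero] at h
  rw [← h, pre_zero]
  unfold sapp fnz
  rw [List.dropWhile_append]
  have : (List.replicate s 0).dropWhile (fun a => a == 0) = [] := by
    rw [List.dropWhile_eq_nil_iff]
    intro b hb
    simp [List.eq_of_mem_replicate hb]
  rw [this]
  have hb : (a == 0) = false := by simpa using ha
  simp [List.dropWhile, hb]

def uS1 : List ℕ → List ℕ := sel fnz (fun a => (a - 1).unpair.1)
def uS2 : List ℕ → List ℕ := sel (fun σ => fnz (sfst σ)) (fun a => (a - 1).unpair.2)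

lemma isFn_uS1 : IsFn uS1 :=
  isFn_sel primrec_fnz fnz_mono
    (Primrec.fst.comp (Primrec.unpair.comp (Primrec.nat_sub.comp Primrec.id (Primrec.const 1))))

lemma fnz_mono2 : ∀ σ τ a, σ <+: τ → fnz (sfst σ) = some a → fnz (sfst τ) = some a :=
  fun _ _ _ h h1 => fnz_mono _ _ _ (isFn_sfst.2 _ _ h) h1

lemma isFn_uS2 : IsFn uS2 :=
  isFn_sel (primrec_fnz.comp (Primrec.list_map Primrec.id
    ((Primrec.fst.comp Primrec.unpair).comp Primrec.snd).to₂)) fnz_mono2
    (Primrec.snd.comp (Primrec.unpair.comp (Primrec.nat_sub.comp Primrec.id (Primrec.const 1))))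

/-- the universal problem equivalent to `f` -/
def U (f : Problem) : Problem := fun p =>
  {r | ∃ z, Maps uS1 p z ∧ (∀ w ∈ f z, ∃ r', Maps uS2 (bpair p w) r') ∧
    ∃ w ∈ f z, Maps uS2 (bpair p w) r}

lemma U_spec (f : Problem) {h k : List ℕ → List ℕ} (hh : IsFn h) (hk : IsFn k) :
    ∃ j, ∀ s x z, Maps h (app s (j + 1) x) z →
      (∀ w ∈ f z, ∃ r, Maps k (bpair (app s (j + 1) x) w) r) →
      ∀ r, r ∈ U f (app s (j + 1) x) ↔ ∃ w ∈ f z, Maps k (bpair (app s (j + 1) x) w) r := by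
  obtain ⟨c1, hc1⟩ := exists_code hh
  obtain ⟨c2, hc2⟩ := exists_code hk
  refine ⟨Nat.pair (Encodable.encode c1) (Encodable.encode c2), ?_⟩
  intro s x z h1 h2 r
  set j := Nat.pair (Encodable.encode c1) (Encodable.encode c2) with hj
  have hu1 : ∀ z, Maps h (app s (j + 1) x) z → Maps uS1 (app s (j + 1) x) z := by
    intro z h1
    refine maps_sel fnz_mono (fnz_app s (j + 1) x (by omega)) ?_
    simp only [add_tsub_cancel_right, hj, Nat.unpair_pair, Denumerable.ofNat_encode]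
    exact hc1 _ _ h1
  have hu2 : ∀ w r, Maps k (bpair (app s (j + 1) x) w) r → Maps uS2 (bpair (app s (j + 1) x) w) r := by
    intro w r h1
    refine maps_sel (n := s + 1) (a := j + 1) fnz_mono2 ?_ ?_
    · rw [sfst_pre, fst_pair]
      exact fnz_app s (j + 1) x (by omega)
    simp only [add_tsub_cancel_right, hj, Nat.unpair_pair, Denumerable.ofNat_encode]
    exact hc2 _ _ h1
  have hu2' : ∀ w ∈ f z, ∀ r, Maps uS2 (bpair (app s (j + 1) x) w) r →
      Maps k (bpair (app s (j + 1) x) w) r := by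
    intro w hw r hr
    obtain ⟨r', hr'⟩ := h2 w hw
    rwa [Maps.unique isFn_uS2.2 hr (hu2 _ _ hr')]
  constructor
  · rintro ⟨z', hz', -, w, hw, hr⟩
    obtain rfl := Maps.unique isFn_uS1.2 hz' (hu1 z h1)
    exact ⟨w, hw, hu2' w hw r hr⟩
  · rintro ⟨w, hw, hr⟩
    refine ⟨z, hu1 z h1, ?_, w, hw, hu2 w r hr⟩
    intro w' hw'
    obtain ⟨r', hr'⟩ := h2 w' hw'
    exact ⟨r', hu2 _ _ hr'⟩

/-- internal version of Weihrauch reducibility -/
def WLE' (f g : Problem) : Prop :=
  ∃ h k : List ℕ → List ℕ, IsFn h ∧ IsFn k ∧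
    ∀ p ∈ dom f, ∃ p', Maps h p p' ∧ p' ∈ dom g ∧
      ∀ q ∈ g p', ∃ r, Maps k (bpair p q) r ∧ r ∈ f p

lemma maps_fst (p q : ℕ → ℕ) : Maps sfst (bpair p q) p := by
  have := maps_sfst (bpair p q)
  rwa [fst_pair] at this

lemma maps_snd (p q : ℕ → ℕ) : Maps ssnd (bpair p q) q := by
  have := maps_ssnd (bpair p q)
  rwa [snd_pair] at this

lemma WLE'.refl (f : Problem) : WLE' f f :=
  ⟨_, _, isFn_id, isFn_ssnd, fun p hp => ⟨p, maps_id p, hp, fun q hq => ⟨q, maps_snd p q, hq⟩⟩⟩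

lemma WLE'.trans {f g u : Problem} (h1 : WLE' f g) (h2 : WLE' g u) : WLE' f u := by
  obtain ⟨h1, k1, hh1, hk1, H1⟩ := h1
  obtain ⟨h2, k2, hh2, hk2, H2⟩ := h2
  refine ⟨_, _, hh2.comp hh1,
    hk1.comp (isFn_sfst.pair (hk2.comp ((hh1.comp isFn_sfst).pair isFn_ssnd))), ?_⟩
  intro p hp
  obtain ⟨p', hp', hp'd, H1'⟩ := H1 p hp
  obtain ⟨p'', hp'', hp''d, H2'⟩ := H2 p' hp'd
  refine ⟨p'', hp'.comp hh2.2 hp'', hp''d, ?_⟩
  intro q hq
  obtain ⟨r, hr, hrg⟩ := H2' q hq
  obtain ⟨r', hr', hrf⟩ := H1' r hrg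
  refine ⟨r', ?_, hrf⟩
  have a1 : Maps (fun σ => h1 (sfst σ)) (bpair p q) p' := (maps_fst p q).comp hh1.2 hp'
  have a2 : Maps (fun σ => zip (h1 (sfst σ)) (ssnd σ)) (bpair p q) (bpair p' q) :=
    Maps.pair (hh1.comp isFn_sfst).2 isFn_ssnd.2 a1 (maps_snd p q)
  have a3 := a2.comp hk2.2 hr
  have a4 := Maps.pair isFn_sfst.2 (hk2.comp ((hh1.comp isFn_sfst).pair isFn_ssnd)).2 (maps_fst p q) a3
  exact a4.comp hk1.2 hr'

lemma meet_le_left (f g : Problem) : WLE' (meet f g) f := by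
  refine ⟨_, _, isFn_sfst, (isFn_cons 0).comp isFn_ssnd, ?_⟩
  rintro p ⟨r, x, z, rfl, hx, hz, -⟩
  refine ⟨x, maps_fst x z, hx, ?_⟩
  intro y hy
  exact ⟨bcons 0 y, (maps_snd _ y).comp (isFn_cons 0).2 (maps_cons 0 y),
    x, z, rfl, hx, hz, Or.inl ⟨y, hy, rfl⟩⟩

lemma meet_le_right (f g : Problem) : WLE' (meet f g) g := by
  refine ⟨_, _, isFn_ssnd, (isFn_cons 1).comp isFn_ssnd, ?_⟩
  rintro p ⟨r, x, z, rfl, hx, hz, -⟩
  refine ⟨z, maps_snd x z, hz, ?_⟩
  intro y hy
  exact ⟨bcons 1 y, (maps_snd _ y).comp (isFn_cons 1).2 (maps_cons 1 y),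
    x, z, rfl, hx, hz, Or.inr ⟨y, hy, rfl⟩⟩

/-- case distinction on the first entry -/
def scase (k1 k2 : List ℕ → List ℕ) (σ : List ℕ) : List ℕ :=
  Option.casesOn (motive := fun _ => List ℕ) (ssnd σ).head? []
    (fun b => if b = 0 then k1 (zip (sfst σ) ((ssnd σ).drop 1))
      else k2 (zip (sfst σ) ((ssnd σ).drop 1)))

lemma isFn_scase {k1 k2 : List ℕ → List ℕ} (h1 : IsFn k1) (h2 : IsFn k2) :
    IsFn (scase k1 k2) := by
  have i1 := h1.comp (isFn_sfst.pair ((isFn_drop 1).comp isFn_ssnd))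
  have i2 := h2.comp (isFn_sfst.pair ((isFn_drop 1).comp isFn_ssnd))
  constructor
  · have hc : Computable₂ (fun (σ : List ℕ) (b : ℕ) =>
        if b = 0 then k1 (zip (sfst σ) ((ssnd σ).drop 1))
          else k2 (zip (sfst σ) ((ssnd σ).drop 1))) := by
      have hb : Computable (fun (a : List ℕ × ℕ) => decide (a.2 = 0)) := by
        have : PrimrecPred (fun (a : List ℕ × ℕ) => a.2 = 0) :=
          Primrec.eq.comp Primrec.snd (Primrec.const 0)
        exact this.decide.to_comp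
      refine (Computable.cond hb (i1.1.comp Computable.fst) (i2.1.comp Computable.fst)).of_eq ?_
      rintro ⟨σ, b⟩
      by_cases h : b = 0 <;> simp [h]
    exact Computable.option_casesOn (Primrec.list_head?.to_comp.comp isFn_ssnd.1)
      (Computable.const []) hc
  · intro σ τ h
    unfold scase
    have hs := isFn_ssnd.2 _ _ h
    cases h3 : (ssnd σ).head? with
    | none => simp
    | some b =>
      have : (ssnd τ).head? = some b := by
        obtain ⟨ρ, hρ⟩ := hs
        rw [← hρ, List.head?_append, h3]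
        rfl
      rw [this]
      simp only
      split_ifs
      · exact i1.2 _ _ h
      · exact i2.2 _ _ h

lemma maps_scase {k1 k2 : List ℕ → List ℕ} (h1 : IsFn k1) (h2 : IsFn k2) (p y r : ℕ → ℕ) (b : ℕ)
    (h : if b = 0 then Maps k1 (bpair p y) r else Maps k2 (bpair p y) r) :
    Maps (scase k1 k2) (bpair p (bcons b y)) r := by
  have a0 : Maps (fun σ => zip (sfst σ) ((ssnd σ).drop 1)) (bpair p (bcons b y)) (bpair p y) := by
    refine Maps.pair isFn_sfst.2 ((isFn_drop 1).comp isFn_ssnd).2 (maps_fst _ _) ?_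
    have := (maps_snd p (bcons b y)).comp (isFn_drop 1).2 (maps_drop 1 (bcons b y))
    exact this
  intro m
  have key : ∃ n, pre r m <+: (if b = 0 then k1 (zip (sfst (pre (bpair p (bcons b y)) n)) ((ssnd (pre (bpair p (bcons b y)) n)).drop 1))
      else k2 (zip (sfst (pre (bpair p (bcons b y)) n)) ((ssnd (pre (bpair p (bcons b y)) n)).drop 1))) := by
    split_ifs at h ⊢ with hb
    · exact (a0.comp h1.2 h) m
    · exact (a0.comp h2.2 h) m
  obtain ⟨n, hn⟩ := key
  refine ⟨n + 1, ?_⟩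
  have h3 : (ssnd (pre (bpair p (bcons b y)) (n + 1))).head? = some b := by
    rw [ssnd_pre, snd_pair, pre_cons]
    rfl
  unfold scase
  rw [h3]
  simp only
  refine hn.trans ?_
  have i1 := h1.comp (isFn_sfst.pair ((isFn_drop 1).comp isFn_ssnd))
  have i2 := h2.comp (isFn_sfst.pair ((isFn_drop 1).comp isFn_ssnd))
  split_ifs
  · exact i1.2 _ _ (pre_prefix _ (by omega))
  · exact i2.2 _ _ (pre_prefix _ (by omega))

lemma le_meet {u f g : Problem} (hf : WLE' u f) (hg : WLE' u g) : WLE' u (meet f g) := by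
  obtain ⟨h1, k1, hh1, hk1, H1⟩ := hf
  obtain ⟨h2, k2, hh2, hk2, H2⟩ := hg
  refine ⟨_, _, hh1.pair hh2, isFn_scase hk1 hk2, ?_⟩
  intro p hp
  obtain ⟨x, hx, hxd, H1⟩ := H1 p hp
  obtain ⟨z, hz, hzd, H2⟩ := H2 p hp
  refine ⟨bpair x z, Maps.pair hh1.2 hh2.2 hx hz, ?_, ?_⟩
  · obtain ⟨y, hy⟩ := id hxd
    exact ⟨bcons 0 y, x, z, rfl, hxd, hzd, Or.inl ⟨y, hy, rfl⟩⟩
  · rintro q ⟨x', z', hxz, hx', hz', h⟩
    have e1 : x' = x := by
      have := congrArg fst hxz
      simpa using this.symm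
    have e2 : z' = z := by
      have := congrArg snd hxz
      simpa using this.symm
    subst e1 e2
    rcases h with ⟨y, hy, rfl⟩ | ⟨y, hy, rfl⟩
    · obtain ⟨r, hr, hru⟩ := H1 y hy
      exact ⟨r, maps_scase hk1 hk2 _ _ _ _ (by simpa using hr), hru⟩
    · obtain ⟨r, hr, hru⟩ := H2 y hy
      exact ⟨r, maps_scase hk1 hk2 _ _ _ _ (by simpa using hr), hru⟩

lemma app_zero (a : ℕ) (x : ℕ → ℕ) : shift 1 (app 0 a x) = x := shift_app 0 a x

lemma U_le (f : Problem) : WLE' (U f) f := by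
  refine ⟨_, _, isFn_uS1, isFn_uS2, ?_⟩
  rintro p ⟨r, z, hz, hall, w, hw, hr⟩
  refine ⟨z, hz, ⟨w, hw⟩, ?_⟩
  intro q hq
  obtain ⟨r', hr'⟩ := hall q hq
  exact ⟨r', hr', z, hz, hall, q, hq, hr'⟩

lemma mem_total {g : Problem} {p r : ℕ → ℕ} : r ∈ total g p ↔ (p ∈ dom g → r ∈ g p) := Iff.rfl

lemma dom_total (g : Problem) (p : ℕ → ℕ) : p ∈ dom (total g) := by
  by_cases h : p ∈ dom g
  · obtain ⟨r, hr⟩ := id h
    exact ⟨r, fun _ => hr⟩
  · exact ⟨p, fun h' => absurd h' h⟩

/-- the universal property -/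
lemma U_univ {f g : Problem} (hgf : WLE' g f) :
    ∃ j, ∀ p ∈ dom g, app 0 (j + 1) p ∈ dom (U f) ∧ U f (app 0 (j + 1) p) ⊆ g p := by
  obtain ⟨h, k, hh, hk, H⟩ := hgf
  obtain ⟨j, hj⟩ := U_spec f (hh.comp (isFn_drop 1))
    (hk.comp (((isFn_drop 1).comp isFn_sfst).pair isFn_ssnd))
  refine ⟨j, ?_⟩
  intro p hp
  obtain ⟨z, hz, hzd, Hz⟩ := H p hp
  have a1 : Maps (fun σ => h (σ.drop 1)) (app 0 (j + 1) p) z := by
    have := maps_drop 1 (app 0 (j + 1) p)
    rw [app_zero] at this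
    exact this.comp hh.2 hz
  have a2 : ∀ w r, Maps k (bpair p w) r → Maps (fun σ => k (zip ((sfst σ).drop 1) (ssnd σ)))
      (bpair (app 0 (j + 1) p) w) r := by
    intro w r hr
    have b1 : Maps (fun σ => (sfst σ).drop 1) (bpair (app 0 (j + 1) p) w) p := by
      have := (maps_fst (app 0 (j + 1) p) w).comp (isFn_drop 1).2 (maps_drop 1 _)
      rwa [app_zero] at this
    exact (Maps.pair ((isFn_drop 1).comp isFn_sfst).2 isFn_ssnd.2 b1 (maps_snd _ _)).comp hk.2 hr
  have a3 := hj 0 p z a1 (fun w hw => by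
    obtain ⟨r, hr, -⟩ := Hz w hw
    exact ⟨r, a2 w r hr⟩)
  constructor
  · obtain ⟨w, hw⟩ := hzd
    obtain ⟨r, hr, -⟩ := Hz w hw
    exact ⟨r, (a3 r).2 ⟨w, hw, a2 w r hr⟩⟩
  · intro r hr
    obtain ⟨w, hw, hr⟩ := (a3 r).1 hr
    obtain ⟨r', hr', hr'g⟩ := Hz w hw
    have := Maps.unique ((hk.comp (((isFn_drop 1).comp isFn_sfst).pair isFn_ssnd))).2 hr (a2 w r' hr')
    rwa [this]

lemma le_U (f : Problem) : WLE' f (U f) := by
  obtain ⟨j, hj⟩ := U_univ (WLE'.refl f)
  refine ⟨_, _, isFn_sapp 0 (j + 1), isFn_ssnd, ?_⟩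
  intro p hp
  obtain ⟨h1, h2⟩ := hj p hp
  exact ⟨_, maps_sapp 0 (j + 1) p, h1, fun q hq => ⟨q, maps_snd _ _, h2 hq⟩⟩

lemma total_le_total_U {f g : Problem} (hgf : WLE' g f) : WLE' (total g) (total (U f)) := by
  obtain ⟨j, hj⟩ := U_univ hgf
  refine ⟨_, _, isFn_sapp 0 (j + 1), isFn_ssnd, ?_⟩
  intro p _
  refine ⟨_, maps_sapp 0 (j + 1) p, dom_total _ _, fun q hq => ⟨q, maps_snd _ _, ?_⟩⟩
  intro hp
  obtain ⟨h1, h2⟩ := hj p hp
  exact h2 (hq h1)

lemma shift_mh (f : ℕ → ℕ) (p : ℕ → ℕ) : shift 1 (mh f p) = shift 1 p := rfl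

lemma shift_cons (a : ℕ) (p : ℕ → ℕ) : shift 1 (bcons a p) = p := rfl

lemma cons_inj {a b : ℕ} {p q : ℕ → ℕ} (h : bcons a p = bcons b q) : a = b ∧ p = q := by
  constructor
  · exact congrFun h 0
  · have := congrArg (shift 1) h
    simpa [shift_cons] using this

/-- The key lemma. -/
lemma key {f g M : Problem} {Φ Ψ : List ℕ → List ℕ} (hM : WLE' M g) (hΦ : IsFn Φ) (hΨ : IsFn Ψ)
    (hred : ∀ p p', ∃ P, Maps Φ (bpair p p') P ∧ ∀ R ∈ total M P,
      ∃ t, Maps Ψ (bpair (bpair p p') R) t ∧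
        ((∃ y ∈ total (U f) p, t = bcons 0 y) ∨ (∃ y ∈ total (U g) p', t = bcons 1 y)))
    (R0 : ℕ → ℕ) (s m : ℕ) (h0 : [0, m] <+: Ψ (pre (bpair (bpair zeros zeros) R0) s)) :
    WLE' f g := by
  obtain ⟨Δ, Λ, hΔ, hΛ, hMg⟩ := hM
  -- the simple code
  obtain ⟨j, hj⟩ := U_spec f (isFn_drop (s + 1)) ((isFn_cons (m + 1)).comp isFn_ssnd)
  -- the complex code
  have hP : IsFn (fun σ => sapp s (j + 1) (σ.drop (s + 1))) := (isFn_sapp _ _).comp (isFn_drop _)
  have hPP : IsFn (fun σ => Φ (zip (sapp s (j + 1) (σ.drop (s + 1))) σ)) :=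
    hΦ.comp (hP.pair isFn_id)
  have hh1 : IsFn (fun σ => Δ (Φ (zip (sapp s (j + 1) (σ.drop (s + 1))) σ))) := hΔ.comp hPP
  have hkk : IsFn (fun σ => Ψ (zip (zip (sapp s (j + 1) ((sfst σ).drop (s + 1))) (sfst σ))
      (Λ (zip (Φ (zip (sapp s (j + 1) ((sfst σ).drop (s + 1))) (sfst σ))) (ssnd σ))))) :=
    hΨ.comp (((hP.comp isFn_sfst).pair isFn_sfst).pair
      (hΛ.comp ((hPP.comp isFn_sfst).pair isFn_ssnd)))
  have hk1 : IsFn (fun σ => ((Ψ (zip (zip (sapp s (j + 1) ((sfst σ).drop (s + 1))) (sfst σ))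
      (Λ (zip (Φ (zip (sapp s (j + 1) ((sfst σ).drop (s + 1))) (sfst σ))) (ssnd σ))))).drop 1).modifyHead
        Nat.succ) :=
    (isFn_mh Nat.succ Primrec.succ).comp ((isFn_drop 1).comp hkk)
  obtain ⟨j', hj'⟩ := U_spec g hh1 hk1
  refine ⟨_, _, hh1.comp (isFn_sapp s (j' + 1)), (isFn_drop 1).comp
    (hk1.comp (((isFn_sapp s (j' + 1)).comp isFn_sfst).pair isFn_ssnd)), ?_⟩
  intro x hx
  -- values of the universal problem at `p`
  have hUf : ∀ r, r ∈ U f (app s (j + 1) x) ↔ ∃ y ∈ f x, r = bcons (m + 1) y := by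
    have b1 : Maps (fun σ => σ.drop (s + 1)) (app s (j + 1) x) x := by
      have := maps_drop (s + 1) (app s (j + 1) x)
      rwa [shift_app] at this
    have b2 : ∀ w, Maps (fun σ => (m + 1) :: ssnd σ) (bpair (app s (j + 1) x) w) (bcons (m + 1) w) :=
      fun w => (maps_snd _ w).comp (isFn_cons (m + 1)).2 (maps_cons _ _)
    intro r
    rw [hj s x x b1 (fun w _ => ⟨_, b2 w⟩)]
    constructor
    · rintro ⟨w, hw, hr⟩
      exact ⟨w, hw, Maps.unique ((isFn_cons (m + 1)).comp isFn_ssnd).2 hr (b2 w)⟩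
    · rintro ⟨w, hw, rfl⟩
      exact ⟨w, hw, b2 w⟩
  have hUfd : app s (j + 1) x ∈ dom (U f) := by
    obtain ⟨y, hy⟩ := id hx
    exact ⟨_, (hUf _).2 ⟨y, hy, rfl⟩⟩
  obtain ⟨P, hPm, hR⟩ := hred (app s (j + 1) x) (app s (j' + 1) x)
  -- `P` lies in the domain of `M`
  have hPd : P ∈ dom M := by
    by_contra hPd
    obtain ⟨t, ht, hor⟩ := hR R0 (fun h => absurd h hPd)
    have e : pre (bpair (bpair (app s (j + 1) x) (app s (j' + 1) x)) R0) s
        = pre (bpair (bpair zeros zeros) R0) s := by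
      rw [← zip_pre, ← zip_pre, ← zip_pre, ← zip_pre, pre_app _ _ _ _ le_rfl, pre_app _ _ _ _ le_rfl]
    rw [← e] at h0
    obtain ⟨n, hn⟩ := ht 2
    have c1 := h0.trans (hΨ.2 _ _ (pre_prefix _ (le_max_left s n)))
    have c2 := hn.trans (hΨ.2 _ _ (pre_prefix _ (le_max_right s n)))
    have c3 : [0, m] = pre t 2 :=
      (List.prefix_of_prefix_length_le c1 c2 (by simp)).eq_of_length (by simp)
    have c4 : t 0 = 0 ∧ t 1 = m := by
      simp [pre, List.range_succ] at c3
      exact ⟨c3.1.symm, c3.2.symm⟩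
    rcases hor with ⟨y, hy, rfl⟩ | ⟨y, hy, rfl⟩
    · obtain ⟨w, hw, rfl⟩ := (hUf y).1 (hy hUfd)
      have : m + 1 = m := c4.2
      omega
    · exact absurd c4.1 (by simp [bcons])
  obtain ⟨z, hz, hzd, hw⟩ := hMg P hPd
  -- evaluation of the complex code
  have eP : Maps (fun σ => sapp s (j + 1) (σ.drop (s + 1))) (app s (j' + 1) x) (app s (j + 1) x) := by
    have := maps_drop (s + 1) (app s (j' + 1) x)
    rw [shift_app] at this
    exact this.comp (isFn_sapp _ _).2 (maps_sapp _ _ _)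
  have ePP : Maps (fun σ => Φ (zip (sapp s (j + 1) (σ.drop (s + 1))) σ)) (app s (j' + 1) x) P :=
    (Maps.pair hP.2 isFn_id.2 eP (maps_id _)).comp hΦ.2 hPm
  have e1 : Maps (fun σ => Δ (Φ (zip (sapp s (j + 1) (σ.drop (s + 1))) σ))) (app s (j' + 1) x) z :=
    ePP.comp hΔ.2 hz
  have e2 : ∀ w R t, Maps Λ (bpair P w) R →
      Maps Ψ (bpair (bpair (app s (j + 1) x) (app s (j' + 1) x)) R) t →
      Maps (fun σ => ((Ψ (zip (zip (sapp s (j + 1) ((sfst σ).drop (s + 1))) (sfst σ))
      (Λ (zip (Φ (zip (sapp s (j + 1) ((sfst σ).drop (s + 1))) (sfst σ))) (ssnd σ))))).drop 1).modifyHead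
        Nat.succ) (bpair (app s (j' + 1) x) w) (mh Nat.succ (shift 1 t)) := by
    intro w R t hwR hRt
    have d1 : Maps (fun σ => sapp s (j + 1) ((sfst σ).drop (s + 1))) (bpair (app s (j' + 1) x) w)
        (app s (j + 1) x) := (maps_fst _ _).comp hP.2 eP
    have d2 : Maps (fun σ => Φ (zip (sapp s (j + 1) ((sfst σ).drop (s + 1))) (sfst σ)))
        (bpair (app s (j' + 1) x) w) P := (maps_fst _ _).comp hPP.2 ePP
    have d3 : Maps (fun σ => Λ (zip (Φ (zip (sapp s (j + 1) ((sfst σ).drop (s + 1))) (sfst σ))) (ssnd σ)))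
        (bpair (app s (j' + 1) x) w) R :=
      (Maps.pair (hPP.comp isFn_sfst).2 isFn_ssnd.2 d2 (maps_snd _ _)).comp hΛ.2 hwR
    have d4 : Maps (fun σ => zip (sapp s (j + 1) ((sfst σ).drop (s + 1))) (sfst σ))
        (bpair (app s (j' + 1) x) w) (bpair (app s (j + 1) x) (app s (j' + 1) x)) :=
      Maps.pair (hP.comp isFn_sfst).2 isFn_sfst.2 d1 (maps_fst _ _)
    have d5 := Maps.pair ((hP.comp isFn_sfst).pair isFn_sfst).2
      (hΛ.comp ((hPP.comp isFn_sfst).pair isFn_ssnd)).2 d4 d3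
    have d6 := d5.comp hΨ.2 hRt
    have d7 := d6.comp (isFn_drop 1).2 (maps_drop 1 t)
    exact d7.comp (isFn_mh Nat.succ Primrec.succ).2 (maps_mh Nat.succ _)
  -- the solutions
  have hsol : ∀ w ∈ g z, ∃ t, Maps (fun σ => ((Ψ (zip (zip (sapp s (j + 1) ((sfst σ).drop (s + 1))) (sfst σ))
      (Λ (zip (Φ (zip (sapp s (j + 1) ((sfst σ).drop (s + 1))) (sfst σ))) (ssnd σ))))).drop 1).modifyHead
        Nat.succ) (bpair (app s (j' + 1) x) w) (mh Nat.succ (shift 1 t)) ∧
        ((∃ y ∈ total (U f) (app s (j + 1) x), t = bcons 0 y) ∨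
          (∃ y ∈ total (U g) (app s (j' + 1) x), t = bcons 1 y)) := by
    intro w hwg
    obtain ⟨R, hR1, hR2⟩ := hw w hwg
    obtain ⟨t, ht, hor⟩ := hR R (fun _ => hR2)
    exact ⟨t, e2 w R t hR1 ht, hor⟩
  have hUg := hj' s x z e1 (fun w hwg => by
    obtain ⟨t, ht, -⟩ := hsol w hwg
    exact ⟨_, ht⟩)
  have hUgd : app s (j' + 1) x ∈ dom (U g) := by
    obtain ⟨w, hwg⟩ := id hzd
    obtain ⟨t, ht, -⟩ := hsol w hwg
    exact ⟨_, (hUg _).2 ⟨w, hwg, ht⟩⟩
  -- the well-founded descent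
  have main : ∀ n, ∀ w ∈ g z, ∀ r, Maps (fun σ => ((Ψ (zip (zip (sapp s (j + 1) ((sfst σ).drop (s + 1))) (sfst σ))
      (Λ (zip (Φ (zip (sapp s (j + 1) ((sfst σ).drop (s + 1))) (sfst σ))) (ssnd σ))))).drop 1).modifyHead
        Nat.succ) (bpair (app s (j' + 1) x) w) r → r 0 = n → shift 1 r ∈ f x := by
    intro n
    induction n using Nat.strong_induction_on with
    | _ n ih =>
      intro w hwg r hr hrn
      obtain ⟨t, ht, hor⟩ := hsol w hwg
      obtain rfl := Maps.unique hk1.2 hr ht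
      rcases hor with ⟨y, hy, rfl⟩ | ⟨y, hy, rfl⟩
      · obtain ⟨y', hy', rfl⟩ := (hUf y).1 (hy hUfd)
        exact hy'
      · obtain ⟨w', hw', hyw⟩ := (hUg y).1 (hy hUgd)
        refine ih (y 0) ?_ w' hw' y hyw rfl
        rw [← hrn]
        exact Nat.lt_succ_self _
  refine ⟨z, (maps_sapp s (j' + 1) x).comp hh1.2 e1, hzd, ?_⟩
  intro w hwg
  obtain ⟨t, ht, -⟩ := hsol w hwg
  refine ⟨_, ?_, main _ w hwg _ ht rfl⟩
  have f1 : Maps (fun σ => zip (sapp s (j' + 1) (sfst σ)) (ssnd σ)) (bpair x w)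
      (bpair (app s (j' + 1) x) w) :=
    Maps.pair ((isFn_sapp s (j' + 1)).comp isFn_sfst).2 isFn_ssnd.2
      ((maps_fst x w).comp (isFn_sapp _ _).2 (maps_sapp _ _ _)) (maps_snd _ _)
  exact (f1.comp hk1.2 ht).comp (isFn_drop 1).2 (maps_drop 1 _)

/-- The main theorem, internal form. -/
lemma main {f g M : Problem} (hMf : WLE' M f) (hMg : WLE' M g)
    (h : WLE' (meet (total (U f)) (total (U g))) (total M)) : WLE' f g ∨ WLE' g f := by
  obtain ⟨Φ, Ψ, hΦ, hΨ, H⟩ := h
  have hred : ∀ p p', ∃ P, Maps Φ (bpair p p') P ∧ ∀ R ∈ total M P,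
      ∃ t, Maps Ψ (bpair (bpair p p') R) t ∧
        ((∃ y ∈ total (U f) p, t = bcons 0 y) ∨ (∃ y ∈ total (U g) p', t = bcons 1 y)) := by
    intro p p'
    have hd : bpair p p' ∈ dom (meet (total (U f)) (total (U g))) := by
      obtain ⟨y, hy⟩ := dom_total (U f) p
      exact ⟨bcons 0 y, p, p', rfl, dom_total _ _, dom_total _ _, Or.inl ⟨y, hy, rfl⟩⟩
    obtain ⟨P, hP, -, H1⟩ := H _ hd
    refine ⟨P, hP, fun R hR => ?_⟩
    obtain ⟨t, ht, x, z, hxz, -, -, hor⟩ := H1 R hR
    have e1 : x = p := by simpa using (congrArg fst hxz).symm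
    have e2 : z = p' := by simpa using (congrArg snd hxz).symm
    subst e1 e2
    exact ⟨t, ht, hor⟩
  obtain ⟨P0, hP0, hR0⟩ := hred zeros zeros
  obtain ⟨R0, hR0'⟩ := dom_total M P0
  obtain ⟨t, ht, hor⟩ := hR0 R0 hR0'
  obtain ⟨s, hs⟩ := ht 2
  rcases hor with ⟨y, -, rfl⟩ | ⟨y, -, rfl⟩
  · left
    refine key hMg hΦ hΨ hred R0 s (y 0) ?_
    exact hs
  · right
    -- swap the two sides
    have hsw : IsFn (fun σ => zip (ssnd σ) (sfst σ)) := isFn_ssnd.pair isFn_sfst
    have hflip : Primrec (fun b : ℕ => 1 - b) := Primrec.nat_sub.comp (Primrec.const 1) Primrec.id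
    have hmsw : ∀ p q, Maps (fun σ => zip (ssnd σ) (sfst σ)) (bpair p q) (bpair q p) := fun p q =>
      Maps.pair isFn_ssnd.2 isFn_sfst.2 (maps_snd _ _) (maps_fst _ _)
    have hΦ' : IsFn (fun σ => Φ (zip (ssnd σ) (sfst σ))) := hΦ.comp hsw
    have hΨ0 : IsFn (fun σ => Ψ (zip (zip (ssnd (sfst σ)) (sfst (sfst σ))) (ssnd σ))) :=
      hΨ.comp ((hsw.comp isFn_sfst).pair isFn_ssnd)
    have hΨ' : IsFn (fun σ => (Ψ (zip (zip (ssnd (sfst σ)) (sfst (sfst σ))) (ssnd σ))).modifyHead
        (fun b => 1 - b)) := (isFn_mh _ hflip).comp hΨ0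
    refine key hMf hΦ' hΨ' ?_ R0 s (y 0) ?_
    · intro p p'
      obtain ⟨P, hP, hR⟩ := hred p' p
      refine ⟨P, (hmsw p p').comp hΦ.2 hP, fun R hR' => ?_⟩
      obtain ⟨t, ht, hor⟩ := hR R hR'
      have a1 : Maps (fun σ => zip (zip (ssnd (sfst σ)) (sfst (sfst σ))) (ssnd σ))
          (bpair (bpair p p') R) (bpair (bpair p' p) R) :=
        Maps.pair (hsw.comp isFn_sfst).2 isFn_ssnd.2 ((maps_fst _ _).comp hsw.2 (hmsw p p'))
          (maps_snd _ _)
      have a2 := (a1.comp hΨ.2 ht).comp (isFn_mh _ hflip).2 (maps_mh (fun b => 1 - b) t)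
      refine ⟨_, a2, ?_⟩
      rcases hor with ⟨y, hy, rfl⟩ | ⟨y, hy, rfl⟩
      · exact Or.inr ⟨y, hy, rfl⟩
      · exact Or.inl ⟨y, hy, rfl⟩
    · have e : zip (zip (ssnd (sfst (pre (bpair (bpair zeros zeros) R0) s)))
          (sfst (sfst (pre (bpair (bpair zeros zeros) R0) s)))) (ssnd (pre (bpair (bpair zeros zeros) R0) s))
          = pre (bpair (bpair zeros zeros) R0) s := by
        rw [sfst_pre, fst_pair, ssnd_pre, snd_pair, sfst_pre, fst_pair, ssnd_pre, snd_pair,
          zip_pre, zip_pre]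
      change _ <+: (Ψ (zip (zip (ssnd (sfst (pre (bpair (bpair zeros zeros) R0) s)))
          (sfst (sfst (pre (bpair (bpair zeros zeros) R0) s)))) (ssnd (pre (bpair (bpair zeros zeros) R0) s)))).modifyHead _
      rw [e]
      obtain ⟨ρ, hρ⟩ := hs
      rw [← hρ]
      have : pre (bcons 1 y) 2 = [1, y 0] := by
        simp [pre, List.range_succ, bcons]
      rw [this]
      simp

/-! ### Back to partial functionals -/

/-- the functional given by a string function -/
noncomputable def lim (h : List ℕ → List ℕ) : (ℕ → ℕ) →. (ℕ → ℕ) :=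
  fun p => ⟨∃ q, Maps h p q, fun H => H.choose⟩

lemma mem_lim {h : List ℕ → List ℕ} (hm : Mono h) {p q : ℕ → ℕ} : q ∈ lim h p ↔ Maps h p q := by
  constructor
  · rintro ⟨H, rfl⟩
    exact H.choose_spec
  · intro hq
    have H : ∃ q, Maps h p q := ⟨q, hq⟩
    exact ⟨H, Maps.unique hm H.choose_spec hq⟩

lemma compFun_lim {h : List ℕ → List ℕ} (hh : IsFn h) : CompFun (lim h) :=
  ⟨h, hh.1, hh.2, fun _ _ hq => (mem_lim hh.2).1 hq⟩

lemma WLE_iff (f g : Problem) : WLE f g ↔ WLE' f g := by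
  constructor
  · rintro ⟨Φ, Ψ, ⟨h, hc, hm, hh⟩, ⟨k, kc, km, kk⟩, H⟩
    refine ⟨h, k, ⟨hc, hm⟩, ⟨kc, km⟩, ?_⟩
    intro p hp
    obtain ⟨p', hp', hd, H'⟩ := H p hp
    refine ⟨p', hh _ _ hp', hd, fun q hq => ?_⟩
    obtain ⟨r, hr, hrf⟩ := H' q hq
    exact ⟨r, kk _ _ hr, hrf⟩
  · rintro ⟨h, k, hh, hk, H⟩
    refine ⟨lim h, lim k, compFun_lim hh, compFun_lim hk, ?_⟩
    intro p hp
    obtain ⟨p', hp', hd, H'⟩ := H p hp
    refine ⟨p', (mem_lim hh.2).2 hp', hd, fun q hq => ?_⟩
    obtain ⟨r, hr, hrf⟩ := H' q hq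
    exact ⟨r, (mem_lim hk.2).2 hr, hrf⟩

lemma WLE.refl (f : Problem) : WLE f f := (WLE_iff _ _).2 (WLE'.refl f)

lemma WLE.trans {f g u : Problem} (h1 : WLE f g) (h2 : WLE g u) : WLE f u :=
  (WLE_iff _ _).2 (((WLE_iff _ _).1 h1).trans ((WLE_iff _ _).1 h2))

/-- The totalizing jump exists: it is represented by the totalization of the universal problem. -/
theorem isTotJump_total_U (f : Problem) : IsTotJump f (total (U f)) :=
  ⟨⟨U f, ⟨(WLE_iff _ _).2 (U_le f), (WLE_iff _ _).2 (le_U f)⟩, WLE.refl _, WLE.refl _⟩,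
    fun g hg => (WLE_iff _ _).2 (total_le_total_U ((WLE_iff _ _).1 hg.1))⟩

/-- Existence of the totalizing jump (so that the hypotheses of `result` are satisfiable). -/
theorem exists_isTotJump (f : Problem) : ∃ t, IsTotJump f t := ⟨_, isTotJump_total_U f⟩

lemma IsTotJump.le_total_U {f t : Problem} (h : IsTotJump f t) : WLE t (total (U f)) := by
  obtain ⟨⟨g, hg, ht⟩, -⟩ := h
  exact ht.1.trans ((isTotJump_total_U f).2 g hg)

lemma IsTotJump.total_U_le {f t : Problem} (h : IsTotJump f t) : WLE (total (U f)) t :=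
  h.2 _ ⟨(WLE_iff _ _).2 (U_le f), (WLE_iff _ _).2 (le_U f)⟩

lemma meet_mono {f g f' g' : Problem} (h1 : WLE' f f') (h2 : WLE' g g') :
    WLE' (meet f g) (meet f' g') :=
  le_meet ((meet_le_left f g).trans h1) ((meet_le_right f g).trans h2)

/-- If `f` and `g` are Weihrauch-incomparable, then `tJ(f ⊓ g) < tJ(f) ⊓ tJ(g)`. -/
theorem tJ_meet_strict (f g : Problem) (hfg : ¬ WLE f g) (hgf : ¬ WLE g f)
    (tf tg tm : Problem) (hf : IsTotJump f tf) (hg : IsTotJump g tg)
    (hm : IsTotJump (meet f g) tm) :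
    WLE tm (meet tf tg) ∧ ¬ WLE (meet tf tg) tm := by
  constructor
  · rw [WLE_iff]
    have h0 : WLE' tm (total (U (meet f g))) := (WLE_iff _ _).1 hm.le_total_U
    refine le_meet ?_ ?_
    · have h1 : WLE' (U (meet f g)) f := (U_le _).trans (meet_le_left f g)
      exact (h0.trans (total_le_total_U h1)).trans ((WLE_iff _ _).1 hf.total_U_le)
    · have h1 : WLE' (U (meet f g)) g := (U_le _).trans (meet_le_right f g)
      exact (h0.trans (total_le_total_U h1)).trans ((WLE_iff _ _).1 hg.total_U_le)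
  · intro h
    have h1 : WLE' (meet (total (U f)) (total (U g))) (total (U (meet f g))) :=
      ((meet_mono ((WLE_iff _ _).1 hf.total_U_le) ((WLE_iff _ _).1 hg.total_U_le)).trans
        ((WLE_iff _ _).1 h)).trans ((WLE_iff _ _).1 hm.le_total_U)
    rcases main ((U_le _).trans (meet_le_left f g)) ((U_le _).trans (meet_le_right f g)) h1 with h2 | h2
    · exact hfg ((WLE_iff _ _).2 h2)
    · exact hgf ((WLE_iff _ _).2 h2)

end Pool.Agent.Lib_MP_1d3aa8_lc
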